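import Pool.Agent.helper4.EC.Spec

/-! # A common neighbour in the i-graph comes from the same token -/

set_option autoImplicit false

namespace Pool.Agent.helper4.EC

open Finset

universe u

theorem TR (h1 : SA_stmt.{u}) : TR_stmt.{u} := by
  intro V _ G X Y T x y hxy hY hTX hTY
  have hxX : x ∈ X.1 := hxy.1
  have hyX : y ∉ X.1 := hxy.2.1
  have hadj : G.Adj x y := hxy.2.2.1
  obtain ⟨a, b, hab, hT⟩ := (h1 V G X T).1 hTX.symm
  by_cases hax : a = x
  · subst hax
    refine ⟨b, ?_, hab, hT⟩
    intro hby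
    subst hby
    exact hTY.ne (Subtype.ext (hT.trans hY.symm))
  · exfalso
    obtain ⟨c, d, hcd, hT2⟩ := (h1 V G Y T).1 hTY.symm
    have haX : a ∈ X.1 := hab.1
    have hbX : b ∉ X.1 := hab.2.1
    have haY : a ∈ Y.1 := by
      rw [hY]
      exact mem_insert_of_mem (mem_erase.2 ⟨hax, haX⟩)
    have haT : a ∉ T.1 := by
      rw [hT, mem_insert]
      rintro (h | h)
      · exact hbX (h ▸ haX)
      · exact (mem_erase.1 h).1 rfl
    have hca : a = c := by
      by_contra h
      apply haT
      rw [hT2]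
      exact mem_insert_of_mem (mem_erase.2 ⟨h, haY⟩)
    have hyY : y ∈ Y.1 := by
      rw [hY]
      exact mem_insert_self _ _
    have hyc : y ≠ c := by
      intro h
      rw [← hca] at h
      exact hyX (h ▸ haX)
    have hyT : y ∈ T.1 := by
      rw [hT2]
      exact mem_insert_of_mem (mem_erase.2 ⟨hyc, hyY⟩)
    have hxT : x ∈ T.1 := by
      rw [hT]
      exact mem_insert_of_mem (mem_erase.2 ⟨Ne.symm hax, hxX⟩)
    exact T.2.1.1 x hxT y hyT hadj

end Pool.Agent.helper4.EC
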